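import Pool.Agent.Y166.LT.Stm

/-! Project LT, step EMB: the embedding into the field of the parameters (helper518). -/

set_option autoImplicit false

namespace Pool.Agent.Y518.LT.EMB

open MvPolynomial Pool.Agent.Y166.GM Pool.Agent.Y166.SM Pool.Agent.Y198.MC Pool.Agent.Y166.LT
open FF (Place)

/-- Algebraic independence of quotients by specialisation of the numerators and of the
denominator. -/
theorem indep_of_spec {k ι σ L : Type} [Field k] [Field L] [Algebra k L] (t : σ → L)
    (ht : AlgebraicIndependent k t) (N : ι → MvPolynomial σ k) (D : MvPolynomial σ k)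
    (φ : MvPolynomial σ k →ₐ[k] MvPolynomial ι k) (hD : φ D = 1) (hN : ∀ j, φ (N j) = X j) :
    AlgebraicIndependent k (fun j => aeval t (N j) / aeval t D) := by
  classical
  have hinj : Function.Injective (aeval t : MvPolynomial σ k →ₐ[k] L) :=
    algebraicIndependent_iff_injective_aeval.1 ht
  have hDne : D ≠ 0 := by
    intro h
    rw [h, map_zero] at hD
    exact zero_ne_one hD
  have hD0 : aeval t D ≠ 0 := fun h => hDne (hinj (by rw [h, map_zero]))
  have hunit : IsUnit (φ D) := by rw [hD]; exact isUnit_one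
  have hunit' : IsUnit ((aeval t : MvPolynomial σ k →ₐ[k] L) D) := isUnit_iff_ne_zero.2 hD0
  let A := Localization.Away D
  let ψ : A →ₐ[k] MvPolynomial ι k := IsLocalization.Away.liftAlgHom D hunit
  let χ : A →ₐ[k] L := IsLocalization.Away.liftAlgHom D hunit'
  have hψ : ∀ F, ψ (algebraMap _ A F) = φ F := fun F => IsLocalization.Away.lift_eq D hunit F
  have hχ : ∀ F, χ (algebraMap _ A F) = aeval t F :=
    fun F => IsLocalization.Away.lift_eq D hunit' F
  have hχinj : Function.Injective χ := by
    have hle : Submonoid.powers D ≤ nonZeroDivisors (MvPolynomial σ k) :=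
      powers_le_nonZeroDivisors_of_noZeroDivisors hDne
    refine (injective_iff_map_eq_zero χ).2 fun a ha => ?_
    obtain ⟨⟨F, s⟩, hF⟩ := IsLocalization.surj (Submonoid.powers D) a
    have h1 : χ (a * algebraMap _ A (s : MvPolynomial σ k)) = 0 := by rw [map_mul, ha, zero_mul]
    rw [hF, hχ] at h1
    have h2 : F = 0 := hinj (by rw [h1, map_zero])
    rw [h2, map_zero] at hF
    exact (IsLocalization.map_units A s).mul_left_eq_zero.1 hF
  have hDA : algebraMap _ A D * IsLocalization.Away.invSelf D = 1 :=
    IsLocalization.Away.mul_invSelf D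
  have hψi : ψ (IsLocalization.Away.invSelf D) = 1 := by
    have := congrArg ψ hDA
    rw [map_mul, hψ, hD, one_mul, map_one] at this
    exact this
  have hχi : χ (IsLocalization.Away.invSelf D) = (aeval t D)⁻¹ := by
    have := congrArg χ hDA
    rw [map_mul, hχ, map_one] at this
    exact eq_inv_of_mul_eq_one_right this
  let c : ι → A := fun j => algebraMap _ A (N j) * IsLocalization.Away.invSelf D
  have hc : AlgebraicIndependent k c := by
    apply AlgebraicIndependent.of_comp ψ
    have h1 : ψ ∘ c = (X : ι → MvPolynomial ι k) := by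
      funext j
      simp only [c, Function.comp_apply]
      rw [map_mul, hψ, hψi, mul_one, hN]
    rw [h1]
    exact algebraicIndependent_X ι k
  have h2 := hc.map' hχinj
  have h3 : χ ∘ c = fun j => aeval t (N j) / aeval t D := by
    funext j
    simp only [c, Function.comp_apply]
    rw [map_mul, hχ, hχi, div_eq_mul_inv]
  rwa [h3] at h2

/-- `ptY` commutes with algebra homomorphisms. -/
theorem map_wS {k A B : Type} [Field k] [CommRing A] [CommRing B] [Algebra k A] [Algebra k B]
    {r : ℕ} (f : A →ₐ[k] B) (t : Sy r → A) (j : Co (r + 2)) :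
    f (wS t j) = wS (fun i => f (t i)) j := by
  simp only [wS, ptY, wdg, vec, quad, tu, tv, tx, tq, map_mul, map_sub, map_add]

/-- The parameters of the chart. -/
noncomputable def sp (k : Type) [Field k] (r : ℕ) : Sy r → MvPolynomial (Ch r) k
  | .inl i => U0 X i
  | .inr (.inl i) => V0 X i
  | .inr (.inr (.inl i)) => (![1, X (.inr 0)] : Fin 2 → MvPolynomial (Ch r) k) i
  | .inr (.inr (.inr i)) => (![1, X (.inr 1), X (.inr 2)] : Fin 3 → MvPolynomial (Ch r) k) i

theorem wS_sp (k : Type) [Field k] (r : ℕ) (j : Co (r + 2)) : wS (sp k r) j = vvY k r j := rfl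

theorem vvY_one (k : Type) [Field k] (r : ℕ) : vvY k r (j0 r) = 1 := by
  simp [vvY, ptY, wdg, vec, quad, j0, U0, V0]

theorem vvY_coord (k : Type) [Field k] (r : ℕ) (i : Ch r) : vvY k r (rrY r i) = X i := by
  rcases i with ⟨i, j⟩ | j
  · fin_cases j
    · simp [vvY, ptY, wdg, vec, quad, rrY, U0, V0]
    · simp [vvY, ptY, wdg, vec, quad, rrY, U0, V0]
  · fin_cases j
    · simp [vvY, ptY, wdg, vec, quad, rrY, U0, V0]
    · simp [vvY, ptY, wdg, vec, quad, rrY, U0, V0]
    · simp [vvY, ptY, wdg, vec, quad, rrY, U0, V0]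

/-- The embedding of a field generated by independent elements. -/
theorem exists_hom {k K L ι : Type} [Field k] [Field K] [Field L] [Algebra k K] [Algebra k L]
    (Y : ι → K) (hY : AlgebraicIndependent k Y)
    (htop : IntermediateField.adjoin k (Set.range Y) = ⊤) (b : ι → L)
    (hb : AlgebraicIndependent k b) : ∃ f : K →ₐ[k] L, ∀ j, f (Y j) = b j := by
  let e₁ : K ≃ₐ[k] (IntermediateField.adjoin k (Set.range Y)) :=
    (IntermediateField.topEquiv (F := k) (E := K)).symm.trans (IntermediateField.equivOfEq htop.symm)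
  let f : K →ₐ[k] L := (IntermediateField.val _).comp
    ((hb.aevalEquivField.toAlgHom).comp ((hY.aevalEquivField.symm.toAlgHom).comp e₁.toAlgHom))
  refine ⟨f, fun j => ?_⟩
  have h1 : e₁ (Y j) = hY.aevalEquivField (algebraMap (MvPolynomial ι k) _ (X j)) := by
    apply Subtype.ext
    rw [hY.aevalEquivField_algebraMap_apply_coe, aeval_X]
    rfl
  have h2 : hY.aevalEquivField.symm (e₁ (Y j)) = algebraMap (MvPolynomial ι k) _ (X j) := by
    rw [h1, AlgEquiv.symm_apply_apply]
  have h3 : f (Y j) = ((hb.aevalEquivField (hY.aevalEquivField.symm (e₁ (Y j))) :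
      IntermediateField.adjoin k (Set.range b)) : L) := rfl
  rw [h3, h2, hb.aevalEquivField_algebraMap_apply_coe, aeval_X]

theorem done : S_EMB := by
  classical
  intro k K _ _ _ _ r Y x hctx
  let L := FractionRing (MvPolynomial (Sy r) k)
  let t : Sy r → L := fun i => algebraMap (MvPolynomial (Sy r) k) L (X i)
  have hmap : ∀ F : MvPolynomial (Sy r) k, aeval t F = algebraMap (MvPolynomial (Sy r) k) L F := by
    intro F
    have h : (aeval t : MvPolynomial (Sy r) k →ₐ[k] L) =
        IsScalarTower.toAlgHom k (MvPolynomial (Sy r) k) L := by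
      ext i
      simp [t]
    rw [h]
    rfl
  have hinj : Function.Injective (algebraMap (MvPolynomial (Sy r) k) L) :=
    IsFractionRing.injective _ _
  have ht : AlgebraicIndependent k t := by
    rw [algebraicIndependent_iff_injective_aeval]
    intro F G h
    rw [hmap, hmap] at h
    exact hinj h
  have htop : IntermediateField.adjoin k (Set.range t) = ⊤ := by
    rw [eq_top_iff]
    intro z _
    obtain ⟨F, G, hG, rfl⟩ := IsFractionRing.div_surjective (A := MvPolynomial (Sy r) k) z
    have h1 : ∀ F : MvPolynomial (Sy r) k, algebraMap (MvPolynomial (Sy r) k) L F ∈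
        IntermediateField.adjoin k (Set.range t) := by
      intro F
      rw [← hmap]
      exact IntermediateField.algebra_adjoin_le_adjoin k _
        (by rw [Algebra.adjoin_range_eq_range_aeval]; exact ⟨F, rfl⟩)
    exact div_mem (h1 F) (h1 G)
  let φ : MvPolynomial (Sy r) k →ₐ[k] MvPolynomial (Ch r) k := aeval (sp k r)
  have hφ : ∀ j, φ (wS (X : Sy r → MvPolynomial (Sy r) k) j) = vvY k r j := by
    intro j
    rw [map_wS, ← wS_sp]
    congr 1
    funext i
    exact aeval_X _ _
  have hb := indep_of_spec t ht (fun j => wS (X : Sy r → MvPolynomial (Sy r) k) (rrY r j))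
    (wS (X : Sy r → MvPolynomial (Sy r) k) (j0 r)) φ (by rw [hφ, vvY_one])
    (fun j => by rw [hφ, vvY_coord])
  have hb2 : (fun j => aeval t (wS (X : Sy r → MvPolynomial (Sy r) k) (rrY r j)) /
      aeval t (wS (X : Sy r → MvPolynomial (Sy r) k) (j0 r))) =
      fun j => wS t (rrY r j) / wS t (j0 r) := by
    funext j
    rw [map_wS, map_wS]
    simp only [aeval_X]
  rw [hb2] at hb
  obtain ⟨f, hf⟩ := exists_hom Y hctx.ind hctx.top _ hb
  let _ : Algebra K L := f.toRingHom.toAlgebra
  have : IsScalarTower k K L := IsScalarTower.of_algebraMap_eq fun c => (f.commutes c).symm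
  exact ⟨L, inferInstance, inferInstance, inferInstance, inferInstance, t, ht, htop, hf⟩

end Pool.Agent.Y518.LT.EMB
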